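import Pool.Agent.BEL.StmtsC

/-!
# Squad BEL, row RAD: moments of a sum of random signs
-/

set_option autoImplicit false

namespace Pool.Agent.BEL.H21

open Pool.Agent.BEL

theorem sum_exp {r : ℕ} (a : Fin r → ℝ) :
    ∑ ε : Fin r → Bool, Real.exp (∑ i, sg (ε i) * a i) = (2 : ℝ) ^ r * ∏ i, Real.cosh (a i) := by
  have h1 : ∏ i : Fin r, ∑ b : Bool, Real.exp (sg b * a i) =
      ∑ ε : Fin r → Bool, ∏ i, Real.exp (sg (ε i) * a i) := by
    rw [Finset.prod_univ_sum, Fintype.piFinset_univ]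
  have h2 : ∀ i, ∑ b : Bool, Real.exp (sg b * a i) = 2 * Real.cosh (a i) := by
    intro i
    rw [Fintype.sum_bool, Real.cosh_eq]
    unfold sg
    rw [if_pos rfl, if_neg (by decide)]
    rw [one_mul, neg_one_mul]
    ring
  simp only [h2] at h1
  rw [Finset.prod_mul_distrib, Finset.prod_const, Finset.card_univ, Fintype.card_fin] at h1
  rw [h1]
  exact Finset.sum_congr rfl fun ε _ => Real.exp_sum _ _

theorem pow_bound (p : ℝ) (hp : 0 < p) : ∃ C : ℝ, 0 < C ∧ ∀ x : ℝ,
    |x| ^ p ≤ C * (Real.exp x + Real.exp (-x)) := by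
  obtain ⟨n, hn⟩ := exists_nat_gt p
  refine ⟨1 + n.factorial, by positivity, fun x => ?_⟩
  have h0 := abs_nonneg x
  have h1 : |x| ^ p ≤ 1 + |x| ^ n := by
    rcases le_total |x| 1 with h | h
    · have h2 : |x| ^ p ≤ 1 := Real.rpow_le_one h0 h hp.le
      have h3 : 0 ≤ |x| ^ n := by positivity
      linarith
    · have h2 : |x| ^ p ≤ |x| ^ (n : ℝ) := Real.rpow_le_rpow_of_exponent_le h hn.le
      rw [Real.rpow_natCast] at h2
      linarith
  have h2 : |x| ^ n / n.factorial ≤ Real.exp |x| := Real.pow_div_factorial_le_exp |x| h0 n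
  have h3 : (0 : ℝ) < n.factorial := by positivity
  rw [div_le_iff₀ h3] at h2
  have h4 : 1 ≤ Real.exp |x| := Real.one_le_exp h0
  have h5 : Real.exp |x| ≤ Real.exp x + Real.exp (-x) := by
    rcases abs_choice x with h | h
    · rw [h]
      have := Real.exp_pos (-x)
      linarith
    · rw [h]
      have := Real.exp_pos x
      linarith
  have h6 : |x| ^ p ≤ (1 + n.factorial) * Real.exp |x| := by
    linarith
  exact h6.trans (mul_le_mul_of_nonneg_left h5 (by positivity))

theorem prod_cosh_le {r : ℕ} (a : Fin r → ℝ) :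
    ∏ i, Real.cosh (a i) ≤ Real.exp ((∑ i, a i ^ 2) / 2) := by
  rw [Finset.sum_div, Real.exp_sum]
  exact Finset.prod_le_prod (fun i _ => (Real.cosh_pos _).le) fun i _ =>
    Real.cosh_le_exp_half_sq _

theorem rad : RadStmt := by
  intro p hp
  obtain ⟨C, hC, hb⟩ := pow_bound p hp
  refine ⟨C * (2 * Real.exp (1 / 2)), by positivity, fun r a => ?_⟩
  obtain ⟨s, hs⟩ : ∃ s, s = Real.sqrt (∑ i, a i ^ 2) := ⟨_, rfl⟩
  have hS : 0 ≤ ∑ i, a i ^ 2 := Finset.sum_nonneg fun i _ => sq_nonneg _
  have hs2 : s ^ 2 = ∑ i, a i ^ 2 := by rw [hs, Real.sq_sqrt hS]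
  have hs0 : 0 ≤ s := by rw [hs]; exact Real.sqrt_nonneg _
  have hsp : (∑ i, a i ^ 2) ^ (p / 2) = s ^ p := by
    rw [← hs2, ← Real.rpow_natCast, ← Real.rpow_mul hs0]
    congr 1
    push_cast
    ring
  rw [hsp]
  rcases hs0.eq_or_lt with h0 | h0
  · have ha : ∀ i, a i = 0 := by
      intro i
      have h1 : a i ^ 2 ≤ ∑ i, a i ^ 2 :=
        Finset.single_le_sum (f := fun i => a i ^ 2) (fun i _ => sq_nonneg _) (Finset.mem_univ i)
      rw [← hs2, ← h0] at h1
      have h2 : a i ^ 2 = 0 := le_antisymm (by simpa using h1) (sq_nonneg _)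
      exact pow_eq_zero_iff (two_ne_zero) |>.1 h2
    unfold av
    simp only [ha, mul_zero, Finset.sum_const_zero, abs_zero]
    rw [Real.zero_rpow hp.ne', ← h0, Real.zero_rpow hp.ne']
    simp
  · have hx : ∀ ε : Fin r → Bool, |∑ i, sg (ε i) * a i| ^ p =
        s ^ p * |∑ i, sg (ε i) * (a i / s)| ^ p := by
      intro ε
      have h1 : ∑ i, sg (ε i) * a i = s * ∑ i, sg (ε i) * (a i / s) := by
        rw [Finset.mul_sum]
        refine Finset.sum_congr rfl fun i _ => ?_
        field_simp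
      rw [h1, abs_mul, abs_of_pos h0, Real.mul_rpow hs0 (abs_nonneg _)]
    have hone : ∑ i, (a i / s) ^ 2 = 1 := by
      simp only [div_pow]
      rw [← Finset.sum_div, ← hs2, div_self (pow_ne_zero 2 h0.ne')]
    have hneg : ∀ ε : Fin r → Bool, -∑ i, sg (ε i) * (a i / s) =
        ∑ i, sg (ε i) * (-(a i / s)) := by
      intro ε
      rw [← Finset.sum_neg_distrib]
      exact Finset.sum_congr rfl fun i _ => by ring
    have hsum : ∑ ε : Fin r → Bool, |∑ i, sg (ε i) * (a i / s)| ^ p ≤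
        C * ((2 : ℝ) ^ r * Real.exp (1 / 2) + (2 : ℝ) ^ r * Real.exp (1 / 2)) := by
      calc ∑ ε : Fin r → Bool, |∑ i, sg (ε i) * (a i / s)| ^ p
          ≤ ∑ ε : Fin r → Bool, C * (Real.exp (∑ i, sg (ε i) * (a i / s)) +
            Real.exp (-∑ i, sg (ε i) * (a i / s))) := Finset.sum_le_sum fun ε _ => hb _
        _ = C * (∑ ε : Fin r → Bool, Real.exp (∑ i, sg (ε i) * (a i / s)) +
            ∑ ε : Fin r → Bool, Real.exp (∑ i, sg (ε i) * (-(a i / s)))) := by
            rw [← Finset.mul_sum, Finset.sum_add_distrib]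
            simp only [hneg]
        _ ≤ _ := by
            refine mul_le_mul_of_nonneg_left (add_le_add ?_ ?_) hC.le
            · rw [sum_exp]
              refine mul_le_mul_of_nonneg_left ?_ (by positivity)
              have := prod_cosh_le fun i => a i / s
              rwa [hone] at this
            · rw [sum_exp]
              refine mul_le_mul_of_nonneg_left ?_ (by positivity)
              have := prod_cosh_le fun i => -(a i / s)
              simp only [neg_sq] at this
              rwa [hone] at this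
    unfold av
    simp only [hx]
    rw [← Finset.mul_sum]
    have h2r : (0 : ℝ) < 2 ^ r := by positivity
    have hsp0 : 0 ≤ s ^ p := Real.rpow_nonneg hs0 p
    calc 1 / (2 : ℝ) ^ r * (s ^ p * ∑ ε : Fin r → Bool, |∑ i, sg (ε i) * (a i / s)| ^ p)
        ≤ 1 / (2 : ℝ) ^ r * (s ^ p * (C * ((2 : ℝ) ^ r * Real.exp (1 / 2) +
          (2 : ℝ) ^ r * Real.exp (1 / 2)))) := by
          refine mul_le_mul_of_nonneg_left ?_ (by positivity)
          exact mul_le_mul_of_nonneg_left hsum hsp0
      _ = C * (2 * Real.exp (1 / 2)) * s ^ p := by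
          field_simp
          ring

end Pool.Agent.BEL.H21
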